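import Mathlib

open Filter Topology BoundedContinuousFunction

namespace Pool.Agent.Results.MP_51339e_an.NotBaire

/-- The Baire sigma-algebra of the weak topology. -/
@[reducible] noncomputable def Ba (X : Type) [NormedAddCommGroup X] [NormedSpace ℝ X] : MeasurableSpace X :=
  ⨆ f : C(WeakSpace ℝ X, ℝ), MeasurableSpace.comap (fun x => f (toWeakSpace ℝ X x)) (borel ℝ)

lemma meas {X : Type} [NormedAddCommGroup X] [NormedSpace ℝ X] (φ : StrongDual ℝ X) :
    @Measurable X ℝ (Ba X) (borel ℝ) φ :=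
  Measurable.of_comap_le (le_iSup (fun f : C(WeakSpace ℝ X, ℝ) => MeasurableSpace.comap
    (fun x => f (toWeakSpace ℝ X x)) (borel ℝ)) ⟨_, WeakBilin.eval_continuous _ φ⟩)

def I := ℕ × Finset ℕ

instance : TopologicalSpace I := ⊥
instance : DiscreteTopology I := ⟨rfl⟩
instance : Countable I := inferInstanceAs (Countable (ℕ × Finset ℕ))
instance : Nonempty I := inferInstanceAs (Nonempty (ℕ × Finset ℕ))

def node (k : ℕ) (S : Finset ℕ) : I := (k, S)

abbrev E := I →ᵇ ℝ

noncomputable def fn (c : I → ℝ) (h : ∀ i, |c i| ≤ 1) : E := ofNormedAddCommGroupDiscrete c 1 h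

noncomputable def R (k : ℕ) : E := fn (fun i => if k ≤ i.1 then 1 else 0) fun i => by
  split_ifs <;> simp

noncomputable def D : E := fn (fun i => (1 / 2) ^ i.1) fun i => by
  rw [abs_of_nonneg (by positivity)]; exact pow_le_one₀ (by norm_num) (by norm_num)

open Classical in
noncomputable def ind (γ : Set ℕ) : E :=
  fn (fun i => if i.2 = (Finset.range i.1).filter (· ∈ γ) then 1 else 0) fun i => by
    split_ifs <;> simp

lemma R_app (k : ℕ) (i : I) : R k i = if k ≤ i.1 then 1 else 0 := rfl
lemma D_app (i : I) : D i = (1 / 2) ^ i.1 := rfl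

def Z0 : Submodule ℝ E where
  carrier := {f | ∃ k, ∀ i : I, k ≤ i.1 → f i = 0}
  zero_mem' := ⟨0, fun _ _ => rfl⟩
  add_mem' := fun ⟨k, hk⟩ ⟨l, hl⟩ => ⟨max k l, fun i hi => by
    simp [hk i (le_of_max_le_left hi), hl i (le_of_max_le_right hi)]⟩
  smul_mem' := fun c _ ⟨k, hk⟩ => ⟨k, fun i hi => by simp [hk i hi]⟩

noncomputable def Z : Submodule ℝ E := Z0.topologicalClosure

instance : IsClosed (Z : Set E) := Z0.isClosed_topologicalClosure

def Q := E ⧸ Z

noncomputable instance : NormedAddCommGroup Q := Submodule.Quotient.normedAddCommGroup Z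
noncomputable instance : NormedSpace ℝ Q := Submodule.Quotient.normedSpace Z ℝ
instance : CompleteSpace Q := Submodule.Quotient.completeSpace Z

noncomputable def mk : E →ₗ[ℝ] Q := Z.mkQ

lemma mk_R (k : ℕ) (f : E) : mk (R k * f) = mk f :=
  (Submodule.Quotient.eq _).2 (Z0.le_topologicalClosure ⟨k, fun i hi => by simp [R_app, hi]⟩)

lemma nrm (f : E) : ‖mk f‖ = ⨅ k, ‖R k * f‖ := by
  refine le_antisymm (le_ciInf fun k => mk_R k f ▸ Submodule.Quotient.norm_mk_le _ _) ?_
  rw [show ‖mk f‖ = Metric.infDist f (closure (Z0 : Set E)) from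
    QuotientAddGroup.norm_mk (S := Z.toAddSubgroup) f, Metric.infDist_closure,
    Metric.le_infDist ⟨0, Z0.zero_mem⟩]
  rintro g ⟨k, hk⟩
  refine (ciInf_le ⟨0, Set.forall_mem_range.2 fun _ => norm_nonneg _⟩ k).trans
    ((norm_le dist_nonneg).2 fun i => ?_)
  rw [mul_apply, R_app]
  split_ifs with h
  · simpa [hk i h] using dist_coe_le_dist (f := f) (g := g) i
  · simp

def W := E × Q

noncomputable instance : NormedAddCommGroup W := inferInstanceAs (NormedAddCommGroup (E × Q))
noncomputable instance : NormedSpace ℝ W := inferInstanceAs (NormedSpace ℝ (E × Q))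
instance : CompleteSpace W := inferInstanceAs (CompleteSpace (E × Q))

noncomputable def J : E →ₗ[ℝ] W := (LinearMap.mulLeft ℝ D).prod mk

noncomputable def T0 : E →ₗ[ℝ] W := (LinearMap.inr ℝ E Q).comp mk

noncomputable def ev (i : I) : W →L[ℝ] ℝ := (evalCLM ℝ i).comp (ContinuousLinearMap.fst ℝ E Q)

noncomputable abbrev X : Submodule ℝ W := J.range.topologicalClosure

lemma mem (f : E) : T0 f ∈ X := by
  have h : Tendsto (fun k => D * (R k * f)) atTop (𝓝 0) := by
    refine squeeze_zero_norm (a := fun k => (1 / 2) ^ k * ‖f‖)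
      (fun k => (norm_le (by positivity)).2 fun i => ?_) ?_
    · rw [mul_apply, mul_apply, R_app, D_app]
      split_ifs with h
      · rw [one_mul, norm_mul, Real.norm_of_nonneg (by positivity)]
        exact mul_le_mul (pow_le_pow_of_le_one (by norm_num) (by norm_num) h)
          (f.norm_coe_le_norm i) (norm_nonneg _) (by positivity)
      · rw [zero_mul, mul_zero, norm_zero]; positivity
    · simpa using (tendsto_pow_atTop_nhds_zero_of_lt_one (r := (1 / 2 : ℝ)) (by norm_num)
        (by norm_num)).mul_const ‖f‖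
  exact J.range.isClosed_topologicalClosure.mem_of_tendsto (h.prodMk_nhds tendsto_const_nhds)
    (.of_forall fun k => J.range.le_topologicalClosure ⟨R k * f, Prod.ext rfl (mk_R k f)⟩)

noncomputable def T : E →ₗ[ℝ] X := T0.codRestrict _ mem

lemma T_norm (f : E) : ‖T f‖ = ⨅ k, ‖R k * f‖ := by
  rw [← nrm]
  exact (Prod.norm_def (0, mk f)).trans (by simp)

lemma weak (φ : StrongDual ℝ X) : Tendsto (fun γ => φ (T (ind γ))) cofinite (𝓝 0) := by
  classical
  obtain ⟨C, hC0, hC⟩ := φ.bound
  refine (Summable.of_abs (summable_of_sum_le (c := C) (fun _ => abs_nonneg _)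
    fun F => ?_)).tendsto_cofinite_zero
  have h1 : ∀ᶠ n in atTop, ∀ a ∈ F, ∀ b ∈ F, (Finset.range n).filter (· ∈ a)
      = (Finset.range n).filter (· ∈ b) → a = b := by
    refine (eventually_all_finset F).2 fun a _ => (eventually_all_finset F).2 fun b _ => ?_
    by_cases h : a = b
    · simp [h]
    obtain ⟨m, hm⟩ := not_forall.1 (mt Set.ext h)
    filter_upwards [eventually_gt_atTop m] with n hn h'
    exact (hm (by simpa [hn] using Finset.ext_iff.1 h' m)).elim
  obtain ⟨k, hk⟩ := eventually_atTop.1 h1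
  have h2 : ∑ γ ∈ F, |φ (T (ind γ))|
      = φ (T (∑ γ ∈ F, (SignType.sign (φ (T (ind γ))) : ℝ) • ind γ)) := by
    simp only [map_sum, map_smul, smul_eq_mul, sign_mul_self]
  rw [h2]
  refine (le_abs_self _).trans ((hC _).trans (mul_le_of_le_one_right hC0.le ?_))
  rw [T_norm]
  refine (ciInf_le ⟨0, Set.forall_mem_range.2 fun _ => norm_nonneg _⟩ k).trans
    ((norm_le zero_le_one).2 fun i => ?_)
  rw [mul_apply, R_app]
  split_ifs with h
  swap
  · simp
  rw [one_mul, BoundedContinuousFunction.sum_apply]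
  by_cases h3 : ∃ a ∈ F, i.2 = (Finset.range i.1).filter (· ∈ a)
  · obtain ⟨a, ha, h3⟩ := h3
    rw [Finset.sum_eq_single_of_mem a ha fun b hb hba => mul_eq_zero_of_right _
      (if_neg fun h4 => hba (hk _ h b hb a ha (by convert h4.symm.trans h3)))]
    refine (norm_mul_le _ _).trans (mul_le_one₀ ?_ (norm_nonneg _) ?_)
    · cases SignType.sign (φ (T (ind a))) <;> simp
    · exact (norm_coe_le_norm _ i).trans (norm_ofNormedAddCommGroup_le _ zero_le_one
        fun _ => by split_ifs <;> simp)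
  · rw [Finset.sum_eq_zero fun b hb => mul_eq_zero_of_right _
      (if_neg fun h4 => h3 ⟨b, hb, by convert h4⟩)]
    simp

theorem result : ∃ (X : Type) (_ : NormedAddCommGroup X) (_ : NormedSpace ℝ X)
    (_ : CompleteSpace X) (A : Submodule ℝ X), Dense (A : Set X) ∧
    @Measurable A ℝ ((Ba X).comap (↑)) (borel ℝ) (fun a => ‖(a : X)‖) ∧
    ¬ @Measurable X ℝ (Ba X) (borel ℝ) fun x => ‖x‖ := by
  classical
  refine ⟨X, inferInstance, inferInstance, J.range.isClosed_topologicalClosure.completeSpace_coe,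
    J.range.comap X.subtype, ?_, ?_, fun h => ?_⟩
  · rw [Subtype.dense_iff]
    exact closure_mono fun x hx => ⟨⟨x, J.range.le_topologicalClosure hx⟩, hx, rfl⟩
  · let : MeasurableSpace X := Ba X
    have hev : ∀ i, Measurable fun a : J.range.comap X.subtype => ev i a.1.1 := fun i =>
      (meas ((ev i).comp X.subtypeL)).comp
        measurable_subtype_coe
    have h1 : Measurable fun a : J.range.comap X.subtype => max (⨆ i, ‖ev i a.1.1‖)
        (⨅ k, ⨆ i, ‖R k i * (2 ^ i.1 * ev i a.1.1)‖) :=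
      (Measurable.iSup fun i => (hev i).norm).max (Measurable.iInf fun k =>
        Measurable.iSup fun i => (((hev i).const_mul _).const_mul _).norm)
    refine (congrArg Measurable (funext ?_)).mpr h1
    intro a
    obtain ⟨f, hf⟩ : a.1.1 ∈ J.range := a.2
    rw [show ‖a.1‖ = ‖a.1.1‖ from rfl, ← hf]
    refine (Prod.norm_def (J f)).trans (congrArg₂ max (norm_eq_iSup_norm _) ((nrm f).trans
      (iInf_congr fun k => (norm_eq_iSup_norm _).trans (iSup_congr fun i => ?_))))
    show ‖R k i * f i‖ = ‖R k i * (2 ^ i.1 * (D i * f i))‖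
    rw [D_app, ← mul_assoc (2 ^ i.1), ← mul_pow]; simp
  let m : MeasurableSpace X :=
    { MeasurableSet' B := {γ | ¬ (T (ind γ) ∈ B ↔ 0 ∈ B)}.Countable
      measurableSet_empty := by simp
      measurableSet_compl B hB := by simpa only [Set.mem_compl_iff, not_iff_not] using hB
      measurableSet_iUnion B hB := (Set.countable_iUnion hB).mono fun γ h => by
        by_contra h'
        simp only [Set.mem_iUnion, Set.mem_ofPred_eq, not_exists, not_not] at h h'
        exact h (exists_congr h') }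
  have h1 : Ba X ≤ m := iSup_le fun f => by
    rintro _ ⟨U, -, rfl⟩
    have h2 : Tendsto (fun γ => toWeakSpace ℝ X (T (ind γ))) cofinite (𝓝 (toWeakSpace ℝ X 0)) :=
      (IsInducing.induced _).tendsto_nhds_iff.2 (tendsto_pi_nhds.2 fun φ => by
        convert weak φ using 1
        exacts [rfl, congrArg _ φ.map_zero])
    show {γ | ¬ (T (ind γ) ∈ _ ↔ (0 : X) ∈ _)}.Countable
    refine ((f.continuous.tendsto _).comp h2).countable_compl_preimage_ker.mono ?_
    intro γ h h'
    refine h ?_
    rw [ker_nhds_eq_specializes] at h'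
    rw [Set.mem_preimage, Set.mem_preimage, show f _ = f _ from Specializes.eq h']
  have h2 : {γ | ¬ (T (ind γ) ∈ (fun x => ‖x‖) ⁻¹' Set.Iio 1 ↔ (0 : X) ∈ _)}.Countable :=
    h1 _ (h (t := Set.Iio 1) measurableSet_Iio)
  obtain ⟨g, hg⟩ := (h2.mono (s₁ := Set.univ) fun γ _ h => by
    have h3 : ‖T (ind γ)‖ < 1 := h.2 (by simp)
    rw [T_norm] at h3
    refine h3.not_ge (le_ciInf fun k => le_trans (le_of_eq ?_)
      (norm_coe_le_norm _ (node k ((Finset.range k).filter (· ∈ γ)))))
    rw [mul_apply, show R k _ = 1 from if_pos le_rfl,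
      show ind γ _ = 1 from if_pos (by simp [node])]
    simp).exists_eq_range ⟨∅, trivial⟩
  exact Function.cantor_surjective g (Set.range_eq_univ.1 hg.symm)

end Pool.Agent.Results.MP_51339e_an.NotBaire
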